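import Mathlib

/-!
If a real characteristic function is everywhere at least `δ`, the law has an atom of mass at least
`δ` at the origin, and the mass `δ` may be removed.
-/

set_option autoImplicit false
open MeasureTheory ProbabilityTheory Set Filter Topology
open scoped NNReal ENNReal

namespace Pool.Agent.Q211.Cra

/-- Gaussian average of a characteristic function. -/
theorem gauss_avg (μ : Measure ℝ) [IsProbabilityMeasure μ] (v : ℝ≥0) :
    ∫ t, charFun μ t ∂(gaussianReal 0 v) = ∫ x, charFun (gaussianReal 0 v) x ∂μ := by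
  simp_rw [charFun_apply_real]
  rw [integral_integral_swap]
  · refine integral_congr_ae (ae_of_all _ fun x => ?_)
    refine integral_congr_ae (ae_of_all _ fun t => ?_)
    show Complex.exp _ = Complex.exp _
    congr 1; ring
  · refine Integrable.mono' (g := fun _ => (1 : ℝ)) (integrable_const _) (by fun_prop)
      (ae_of_all _ fun p => ?_)
    have : (p.1 : ℂ) * (p.2 : ℂ) * Complex.I = ((p.1 * p.2 : ℝ) : ℂ) * Complex.I := by push_cast; ring
    simp only [Function.uncurry]
    rw [this, Complex.norm_exp_ofReal_mul_I]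

theorem atom {μ : Measure ℝ} [IsProbabilityMeasure μ] {f : ℝ → ℝ}
    (hf : ∀ t, charFun μ t = (f t : ℂ)) {δ : ℝ} (hδ : ∀ t, δ ≤ f t) : δ ≤ μ.real {0} := by
  have hmeas : Measurable f := by
    have h1 : Measurable (fun t => (charFun μ t).re) := by
      have : Continuous (charFun μ) := by fun_prop
      exact (Complex.continuous_re.comp this).measurable
    have : f = fun t => (charFun μ t).re := by funext t; rw [hf]; simp
    rw [this]; exact h1
  have hle1 : ∀ t, ‖f t‖ ≤ 1 := by
    intro t
    have := norm_charFun_le_one (μ := μ) t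
    rwa [hf t, Complex.norm_real] at this
  have key : ∀ v : ℝ≥0, δ ≤ ∫ x, Real.exp (-(v * x ^ 2 / 2)) ∂μ := by
    intro v
    have h1 := gauss_avg μ v
    have h2 : ∫ t, charFun μ t ∂(gaussianReal 0 v) = ((∫ t, f t ∂(gaussianReal 0 v) : ℝ) : ℂ) := by
      rw [← integral_complex_ofReal]
      exact integral_congr_ae (ae_of_all _ fun t => hf t)
    have h3 : ∫ x, charFun (gaussianReal 0 v) x ∂μ =
        ((∫ x, Real.exp (-(v * x ^ 2 / 2)) ∂μ : ℝ) : ℂ) := by
      rw [← integral_complex_ofReal]
      refine integral_congr_ae (ae_of_all _ fun x => ?_)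
      show charFun (gaussianReal 0 v) x = ((Real.exp (-(v * x ^ 2 / 2)) : ℝ) : ℂ)
      rw [charFun_gaussianReal, Complex.ofReal_exp]
      congr 1
      push_cast; ring
    rw [h2, h3] at h1
    have h4 : ∫ t, f t ∂(gaussianReal 0 v) = ∫ x, Real.exp (-(v * x ^ 2 / 2)) ∂μ := by
      exact_mod_cast h1
    rw [← h4]
    have : ∫ t, δ ∂(gaussianReal 0 v) = δ := by simp
    rw [← this]
    refine integral_mono (integrable_const _) ?_ hδ
    exact Integrable.mono' (integrable_const (1 : ℝ)) hmeas.aestronglyMeasurable
      (ae_of_all _ hle1)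
  have hlim : Tendsto (fun n : ℕ => ∫ x, Real.exp (-(((n : ℝ≥0) : ℝ) * x ^ 2 / 2)) ∂μ) atTop
      (𝓝 (∫ x, indicator {0} (fun _ => (1 : ℝ)) x ∂μ)) := by
    refine tendsto_integral_of_dominated_convergence (fun _ => (1 : ℝ)) (fun n => by fun_prop)
      (integrable_const _) (fun n => ae_of_all _ fun x => ?_) (ae_of_all _ fun x => ?_)
    · rw [Real.norm_eq_abs, abs_of_pos (Real.exp_pos _)]
      refine Real.exp_le_one_iff.2 ?_
      have : 0 ≤ ((n : ℝ≥0) : ℝ) * x ^ 2 / 2 := by positivity
      linarith
    · by_cases hx : x = 0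
      · subst hx; simp
      · rw [indicator_of_notMem (by simpa using hx)]
        refine Real.tendsto_exp_atBot.comp ?_
        have h5 : Tendsto (fun n : ℕ => (n : ℝ) * (x ^ 2 / 2)) atTop atTop :=
          tendsto_natCast_atTop_atTop.atTop_mul_const (by positivity)
        have h6 := tendsto_neg_atTop_atBot.comp h5
        refine h6.congr fun n => ?_
        simp only [Function.comp, NNReal.coe_natCast]
        ring
  have := ge_of_tendsto' hlim (fun n => key n)
  have h7 : ∫ x, indicator {0} (fun _ => (1 : ℝ)) x ∂μ = μ.real {0} :=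
    integral_indicator_one (measurableSet_singleton 0)
  rwa [h7] at this

/-- Removing the mass `δ` from the atom at the origin. -/
theorem shift {μ : Measure ℝ} [IsProbabilityMeasure μ] {f : ℝ → ℝ}
    (hf : ∀ t, charFun μ t = (f t : ℂ)) {c : ℝ} (hc : 0 < c) (hδ : ∀ t, 1 - c ≤ f t) :
    ∃ ν : Measure ℝ, IsProbabilityMeasure ν ∧
      ∀ t, charFun ν t = (((f t - (1 - c)) / c : ℝ) : ℂ) := by
  have hat := atom hf hδ
  set p := μ.real {0} with hp
  set κ : Measure ℝ := μ.restrict {0}ᶜ + ENNReal.ofReal (p - (1 - c)) • Measure.dirac 0 with hκ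
  have hμc : (μ.real ({0}ᶜ : Set ℝ)) = 1 - p := by
    rw [measureReal_compl (measurableSet_singleton 0)]; simp [hp]
  have hcf : ∀ t, charFun κ t = ((f t - (1 - c) : ℝ) : ℂ) := by
    intro t
    rw [charFun_apply_real, hκ, integral_add_measure, integral_smul_measure]
    · have h1 : ∫ x, Complex.exp (t * x * Complex.I) ∂μ =
          (∫ x in ({0}ᶜ : Set ℝ), Complex.exp (t * x * Complex.I) ∂μ) +
            ∫ x in ({0} : Set ℝ), Complex.exp (t * x * Complex.I) ∂μ := by
        have hi : Integrable (fun x : ℝ => Complex.exp (t * x * Complex.I)) μ := by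
          refine Integrable.mono' (g := fun _ => (1 : ℝ)) (integrable_const _) (by fun_prop)
            (ae_of_all _ fun x => ?_)
          have : (t : ℂ) * (x : ℂ) * Complex.I = ((t * x : ℝ) : ℂ) * Complex.I := by push_cast; ring
          rw [this, Complex.norm_exp_ofReal_mul_I]
        rw [add_comm]
        exact (integral_add_compl (measurableSet_singleton 0) hi).symm
      have h2 : ∫ x in ({0} : Set ℝ), Complex.exp (t * x * Complex.I) ∂μ = (p : ℂ) := by
        rw [integral_singleton]; simp [hp]
      have h3 : ∫ x, Complex.exp (t * x * Complex.I) ∂μ = (f t : ℂ) := by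
        rw [← charFun_apply_real, hf]
      rw [h2, h3] at h1
      have h4 : ∫ x in ({0}ᶜ : Set ℝ), Complex.exp (t * x * Complex.I) ∂μ = (f t : ℂ) - p := by
        rw [h1]; ring
      rw [h4]
      rw [integral_dirac, ENNReal.toReal_ofReal (by linarith)]
      simp only [Complex.ofReal_zero, mul_zero, zero_mul, Complex.exp_zero, Complex.real_smul,
        mul_one]
      push_cast; ring
    · refine Integrable.mono' (g := fun _ => (1 : ℝ)) (integrable_const _) (by fun_prop)
        (ae_of_all _ fun x => ?_)
      have : (t : ℂ) * (x : ℂ) * Complex.I = ((t * x : ℝ) : ℂ) * Complex.I := by push_cast; ring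
      rw [this, Complex.norm_exp_ofReal_mul_I]
    · refine Integrable.smul_measure ?_ ENNReal.ofReal_ne_top
      refine Integrable.mono' (g := fun _ => (1 : ℝ)) (integrable_const _) (by fun_prop)
        (ae_of_all _ fun x => ?_)
      have : (t : ℂ) * (x : ℂ) * Complex.I = ((t * x : ℝ) : ℂ) * Complex.I := by push_cast; ring
      rw [this, Complex.norm_exp_ofReal_mul_I]
  have hmass : κ univ = ENNReal.ofReal c := by
    rw [hκ]
    simp only [Measure.add_apply, Measure.smul_apply, measure_univ, smul_eq_mul, mul_one]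
    rw [Measure.restrict_apply_univ]
    have : μ ({0}ᶜ : Set ℝ) = ENNReal.ofReal (1 - p) := by
      rw [← hμc, ofReal_measureReal]
    rw [this, ← ENNReal.ofReal_add (by rw [← hμc]; exact measureReal_nonneg) (by linarith)]
    congr 1; ring
  refine ⟨(ENNReal.ofReal c)⁻¹ • κ, ⟨?_⟩, fun t => ?_⟩
  · rw [Measure.smul_apply, hmass, smul_eq_mul]
    exact ENNReal.inv_mul_cancel (by simpa using hc) ENNReal.ofReal_ne_top
  · rw [charFun_apply_real, integral_smul_measure, ← charFun_apply_real, hcf t,
      ENNReal.toReal_inv, ENNReal.toReal_ofReal hc.le, Complex.real_smul]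
    push_cast
    field_simp

end Pool.Agent.Q211.Cra
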