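import Pool.Agent.Q211.Cra.Entire

/-!
Cramér's theorem for two real characteristic functions whose product is `exp (-a t^2)`.
-/

set_option autoImplicit false
open MeasureTheory ProbabilityTheory Set Filter Topology
open scoped NNReal ENNReal

namespace Pool.Agent.Q211.Cra

theorem conv_eq {μ ν : Measure ℝ} [IsProbabilityMeasure μ] [IsProbabilityMeasure ν] {f g : ℝ → ℝ}
    (hf : ∀ t, charFun μ t = (f t : ℂ)) (hg : ∀ t, charFun ν t = (g t : ℂ)) {a : ℝ} (ha : 0 ≤ a)
    (h : ∀ t, f t * g t = Real.exp (-(a * t ^ 2))) :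
    μ ∗ ν = gaussianReal 0 (2 * a).toNNReal := by
  refine Measure.ext_of_charFun ?_
  funext t
  rw [charFun_conv, hf, hg, charFun_gaussianReal, ← Complex.ofReal_mul, h t, Complex.ofReal_exp]
  congr 1
  simp only [Complex.ofReal_neg, Complex.ofReal_mul, Complex.ofReal_pow, Complex.ofReal_zero,
    mul_zero, zero_mul, zero_sub]
  have : (((2 * a).toNNReal : ℝ) : ℂ) = 2 * (a : ℂ) := by
    rw [Real.coe_toNNReal _ (by positivity)]; simp
  rw [this]; ring

theorem lintegral_exp_mul {μ ν : Measure ℝ} [IsProbabilityMeasure μ] [IsProbabilityMeasure ν]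
    (s : ℝ) : ∫⁻ w, ENNReal.ofReal (Real.exp (s * w)) ∂(μ ∗ ν) =
      (∫⁻ x, ENNReal.ofReal (Real.exp (s * x)) ∂μ) * ∫⁻ y, ENNReal.ofReal (Real.exp (s * y)) ∂ν := by
  rw [Measure.conv, lintegral_map (by fun_prop) (by fun_prop)]
  have : ∀ p : ℝ × ℝ, ENNReal.ofReal (Real.exp (s * (p.1 + p.2))) =
      ENNReal.ofReal (Real.exp (s * p.1)) * ENNReal.ofReal (Real.exp (s * p.2)) := by
    intro p
    rw [← ENNReal.ofReal_mul (Real.exp_pos _).le, ← Real.exp_add, mul_add]
  simp_rw [this]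
  exact lintegral_prod_mul (f := fun x => ENNReal.ofReal (Real.exp (s * x)))
    (g := fun y => ENNReal.ofReal (Real.exp (s * y))) (by fun_prop) (by fun_prop)

theorem integrable_exp_of {μ ν : Measure ℝ} [IsProbabilityMeasure μ] [IsProbabilityMeasure ν]
    {v : ℝ≥0} (h : μ ∗ ν = gaussianReal 0 v) (s : ℝ) :
    Integrable (fun x => Real.exp (s * x)) μ := by
  have h1 : ∫⁻ w, ENNReal.ofReal (Real.exp (s * w)) ∂(μ ∗ ν) < ∞ := by
    rw [h]
    have := (integrable_exp_mul_gaussianReal (μ := 0) (v := v) s).lintegral_lt_top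
    exact this
  rw [lintegral_exp_mul] at h1
  have hne : ∫⁻ y, ENNReal.ofReal (Real.exp (s * y)) ∂ν ≠ 0 := by
    rw [Ne, lintegral_eq_zero_iff (by fun_prop)]
    intro h0
    have : ∀ᵐ y ∂ν, False := by
      filter_upwards [h0] with y hy
      simp only [Pi.zero_apply, ENNReal.ofReal_eq_zero] at hy
      exact absurd hy (not_le.2 (Real.exp_pos _))
    simp at this
    exact (IsProbabilityMeasure.ne_zero ν) this
  have h2 : ∫⁻ x, ENNReal.ofReal (Real.exp (s * x)) ∂μ ≠ ∞ := by
    intro htop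
    rw [htop, ENNReal.top_mul hne] at h1
    exact lt_irrefl _ h1
  refine ⟨by fun_prop, ?_⟩
  rw [hasFiniteIntegral_iff_ofReal (ae_of_all _ fun _ => (Real.exp_pos _).le)]
  exact lt_top_iff_ne_top.2 h2

theorem complexMGF_mul_of {μ ν : Measure ℝ} [IsProbabilityMeasure μ] [IsProbabilityMeasure ν]
    {v : ℝ≥0} (h : μ ∗ ν = gaussianReal 0 v) (z : ℂ) :
    complexMGF id μ z * complexMGF id ν z = Complex.exp (v * z ^ 2 / 2) := by
  have h1 : complexMGF id (μ ∗ ν) z = Complex.exp (v * z ^ 2 / 2) := by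
    rw [h, complexMGF_id_gaussianReal]; simp
  rw [← h1, complexMGF, complexMGF, complexMGF, Measure.conv, integral_map (by fun_prop)
    (by fun_prop), ← integral_prod_mul]
  refine integral_congr_ae (ae_of_all _ fun p => ?_)
  simp only [id_eq, Complex.ofReal_add, mul_add, Complex.exp_add]

theorem symm_of_real {ν : Measure ℝ} [IsProbabilityMeasure ν] {g : ℝ → ℝ}
    (hg : ∀ t, charFun ν t = (g t : ℂ)) : ν.map (fun x => -x) = ν := by
  have : IsProbabilityMeasure (ν.map (fun x => -x)) :=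
    Measure.isProbabilityMeasure_map (by fun_prop)
  refine Measure.ext_of_charFun ?_
  funext t
  have := charFun_map_mul (μ := ν) (-1) t
  simp only [neg_mul, one_mul] at this
  rw [this, charFun_neg, hg t]
  simp

theorem one_le_mgf {ν : Measure ℝ} [IsProbabilityMeasure ν] {g : ℝ → ℝ}
    (hg : ∀ t, charFun ν t = (g t : ℂ)) (hi : ∀ s : ℝ, Integrable (fun x => Real.exp (s * x)) ν)
    (s : ℝ) : 1 ≤ mgf id ν s := by
  have hs : mgf id ν (-s) = mgf id ν s := by
    have h1 : mgf id ν s = ∫ x, Real.exp (s * x) ∂(ν.map (fun x => -x)) := by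
      rw [symm_of_real hg]; rfl
    rw [h1, integral_map (by fun_prop) (by fun_prop)]
    simp [mgf]
  have h2 : 2 * mgf id ν s = ∫ x, (Real.exp (s * x) + Real.exp ((-s) * x)) ∂ν := by
    rw [integral_add (hi s) (hi (-s))]
    have : ∫ x, Real.exp ((-s) * x) ∂ν = mgf id ν (-s) := rfl
    rw [this, hs]
    have : ∫ x, Real.exp (s * x) ∂ν = mgf id ν s := rfl
    rw [this]; ring
  have h3 : (2 : ℝ) ≤ ∫ x, (Real.exp (s * x) + Real.exp ((-s) * x)) ∂ν := by
    have : ∫ x, (2 : ℝ) ∂ν = 2 := by simp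
    rw [← this]
    refine integral_mono (integrable_const _) ((hi s).add (hi (-s))) fun x => ?_
    have h4 := Real.add_one_le_exp (s * x)
    have h5 := Real.add_one_le_exp ((-s) * x)
    simp only
    nlinarith
  linarith

/-- Cramér's theorem for real characteristic functions. -/
theorem cramer {μ ν : Measure ℝ} [IsProbabilityMeasure μ] [IsProbabilityMeasure ν] {f g : ℝ → ℝ}
    (hf : ∀ t, charFun μ t = (f t : ℂ)) (hg : ∀ t, charFun ν t = (g t : ℂ)) {a : ℝ} (ha : 0 ≤ a)
    (h : ∀ t, f t * g t = Real.exp (-(a * t ^ 2))) (hpos : ∀ t, 0 < f t) :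
    ∃ c : ℝ, 0 ≤ c ∧ ∀ t, f t = Real.exp (-(c * t ^ 2)) := by
  have hc := conv_eq hf hg ha h
  have hc' : ν ∗ μ = gaussianReal 0 (2 * a).toNNReal := by
    rw [Measure.conv_comm]; exact hc
  have hi := integrable_exp_of hc
  have hi' := integrable_exp_of hc'
  have hint : integrableExpSet id μ = univ := by
    ext s; simp only [integrableExpSet, mem_univ, iff_true]; exact hi s
  have hd : Differentiable ℂ (complexMGF id μ) := by
    intro z
    refine (hasDerivAt_complexMGF (X := id) (μ := μ) (z := z) ?_).differentiableAt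
    rw [hint, interior_univ]; trivial
  have hmul := complexMGF_mul_of hc
  have hne : ∀ z, complexMGF id μ z ≠ 0 := by
    intro z hz
    have := hmul z
    rw [hz, zero_mul] at this
    exact Complex.exp_ne_zero _ this.symm
  have h0 : complexMGF id μ 0 = 1 := by simp [complexMGF]
  have hv : (((2 * a).toNNReal : ℝ) : ℂ) = 2 * (a : ℂ) := by
    rw [Real.coe_toNNReal _ (by positivity)]; simp
  have hbd : ∀ z, ‖complexMGF id μ z‖ ≤ Real.exp (a * ‖z‖ ^ 2) := by
    intro z
    have h1 : ‖complexMGF id μ z‖ ≤ mgf id μ z.re := norm_complexMGF_le_mgf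
    have h2 : mgf id μ z.re * mgf id ν z.re = Real.exp (a * z.re ^ 2) := by
      have := hmul (z.re : ℂ)
      rw [complexMGF_ofReal, complexMGF_ofReal] at this
      rw [hv] at this
      have e2 : (2 * (a : ℂ) * (z.re : ℂ) ^ 2 / 2) = ((a * z.re ^ 2 : ℝ) : ℂ) := by
        push_cast; ring
      rw [e2, ← Complex.ofReal_exp] at this
      exact_mod_cast this
    have h3 : 1 ≤ mgf id ν z.re := one_le_mgf hg hi' _
    have h4 : 0 ≤ mgf id μ z.re := mgf_nonneg
    calc ‖complexMGF id μ z‖ ≤ mgf id μ z.re := h1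
      _ ≤ mgf id μ z.re * mgf id ν z.re := le_mul_of_one_le_right h4 h3
      _ = Real.exp (a * z.re ^ 2) := h2
      _ ≤ Real.exp (a * ‖z‖ ^ 2) := by
          refine Real.exp_le_exp.2 (mul_le_mul_of_nonneg_left ?_ ha)
          rw [← sq_abs z.re]
          exact pow_le_pow_left₀ (abs_nonneg _) (Complex.abs_re_le_norm z) 2
  obtain ⟨β, γ, hbg⟩ := entire_log hd hne h0 ha hbd
  have hft : ∀ t : ℝ, (f t : ℂ) = Complex.exp (β * (t * Complex.I) + γ * (t * Complex.I) ^ 2) := by
    intro t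
    rw [← hf t, ← complexMGF_id_mul_I, hbg]
  have heven : ∀ t, f (-t) = f t := by
    intro t
    have h1 : charFun μ (-t) = (starRingEnd ℂ) (charFun μ t) := charFun_neg t
    rw [hf, hf] at h1
    have : ((f (-t) : ℝ) : ℂ) = (f t : ℂ) := by rw [h1]; simp
    exact_mod_cast this
  have hsq : ∀ t, (f t) ^ 2 = Real.exp (-(2 * γ.re * t ^ 2)) := by
    intro t
    have h1 : ((f t : ℝ) : ℂ) * (f (-t) : ℝ) = Complex.exp (-(2 * γ * t ^ 2)) := by
      rw [hft t, hft (-t), ← Complex.exp_add]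
      congr 1
      push_cast
      have := Complex.I_sq
      linear_combination (2 * γ * t ^ 2) * this
    have h2 := congrArg (fun w : ℂ => ‖w‖) h1
    simp only [Complex.norm_exp, norm_mul, Complex.norm_real, heven t] at h2
    have h3 : (-(2 * γ * (t : ℂ) ^ 2)).re = -(2 * γ.re * t ^ 2) := by
      have : (-(2 * γ * (t : ℂ) ^ 2)) = ((-(2 * t ^ 2) : ℝ) : ℂ) * γ := by push_cast; ring
      rw [this, Complex.re_ofReal_mul]; ring
    rw [h3, Real.norm_eq_abs, abs_of_pos (hpos t)] at h2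
    rw [← h2]; ring
  have hfe : ∀ t, f t = Real.exp (-(γ.re * t ^ 2)) := by
    intro t
    have h1 := hsq t
    have h2 : Real.exp (-(2 * γ.re * t ^ 2)) = (Real.exp (-(γ.re * t ^ 2))) ^ 2 := by
      rw [← Real.exp_nat_mul]; congr 1; push_cast; ring
    rw [h2] at h1
    exact (pow_left_inj₀ (hpos t).le (Real.exp_pos _).le two_ne_zero).1 h1
  refine ⟨γ.re, ?_, hfe⟩
  have h1 : f 1 ≤ 1 := by
    have := norm_charFun_le_one (μ := μ) (1 : ℝ)
    rw [hf 1, Complex.norm_real, Real.norm_eq_abs, abs_of_pos (hpos 1)] at this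
    exact this
  rw [hfe 1] at h1
  have := Real.exp_le_one_iff.1 h1
  linarith

end Pool.Agent.Q211.Cra
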