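import Mathlib

/-!
An entire function without zeros and of growth at most `exp (a |z|^2)` is the exponential of a
polynomial of degree at most two.
-/

set_option autoImplicit false
open Complex Set Metric Filter Topology

namespace Pool.Agent.Q211.Cra

theorem differentiable_deriv {f : ℂ → ℂ} (hf : Differentiable ℂ f) : Differentiable ℂ (deriv f) :=
  fun z => ((hf.analyticAt z).deriv).differentiableAt

/-- An entire function of at most quadratic growth which vanishes at 0 is `β z + γ z^2`. -/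
theorem quad_of_growth {g : ℂ → ℂ} (hg : Differentiable ℂ g) (h0 : g 0 = 0) {A B : ℝ}
    (hA : 0 ≤ A) (hB : 0 ≤ B) (hb : ∀ z, ‖g z‖ ≤ A * ‖z‖ ^ 2 + B) :
    ∃ β γ : ℂ, ∀ z, g z = β * z + γ * z ^ 2 := by
  have d1 := differentiable_deriv hg
  have d2 := differentiable_deriv d1
  have h3 : ∀ c, iteratedDeriv 3 g c = 0 := by
    intro c
    have key : ∀ R : ℝ, 1 ≤ R → ‖iteratedDeriv 3 g c‖ ≤ 6 * (A * (‖c‖ + 1) ^ 2 + B) * R⁻¹ := by
      intro R hR
      have hR0 : 0 < R := by linarith
      have := norm_iteratedDeriv_le_of_forall_mem_sphere_norm_le (c := c) (R := R)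
        (C := A * (‖c‖ + R) ^ 2 + B) 3 hR0 hg.diffContOnCl (f := g) (by
          intro z hz
          refine (hb z).trans ?_
          have : ‖z‖ ≤ ‖c‖ + R := by
            have h1 : ‖z - c‖ = R := by simpa [dist_eq_norm] using hz
            calc ‖z‖ = ‖c + (z - c)‖ := by ring_nf
              _ ≤ ‖c‖ + ‖z - c‖ := norm_add_le _ _
              _ = ‖c‖ + R := by rw [h1]
          have h2 : ‖z‖ ^ 2 ≤ (‖c‖ + R) ^ 2 := pow_le_pow_left₀ (norm_nonneg _) this 2
          nlinarith [mul_le_mul_of_nonneg_left h2 hA])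
      refine this.trans ?_
      rw [show ((3 : ℕ).factorial : ℝ) = 6 by norm_num [Nat.factorial]]
      rw [div_le_iff₀ (by positivity)]
      have hc : (‖c‖ + R) ^ 2 ≤ (‖c‖ + 1) ^ 2 * R ^ 2 := by
        have : ‖c‖ + R ≤ (‖c‖ + 1) * R := by nlinarith [norm_nonneg c]
        calc (‖c‖ + R) ^ 2 ≤ ((‖c‖ + 1) * R) ^ 2 := pow_le_pow_left₀ (by positivity) this 2
          _ = _ := by ring
      have hB2 : B ≤ B * R ^ 2 := by nlinarith [mul_nonneg hB (by nlinarith : (0:ℝ) ≤ R ^ 2 - 1)]
      calc 6 * (A * (‖c‖ + R) ^ 2 + B) ≤ 6 * (A * ((‖c‖ + 1) ^ 2 * R ^ 2) + B * R ^ 2) := by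
            gcongr
        _ = 6 * (A * (‖c‖ + 1) ^ 2 + B) * R⁻¹ * R ^ 3 := by field_simp
    have hlim : Tendsto (fun R : ℝ => 6 * (A * (‖c‖ + 1) ^ 2 + B) * R⁻¹) atTop (𝓝 0) := by
      simpa using (tendsto_inv_atTop_zero (𝕜 := ℝ)).const_mul (6 * (A * (‖c‖ + 1) ^ 2 + B))
    have : ‖iteratedDeriv 3 g c‖ ≤ 0 :=
      ge_of_tendsto hlim ((eventually_ge_atTop 1).mono fun R hR => key R hR)
    simpa using this
  have e3 : iteratedDeriv 3 g = deriv (deriv (deriv g)) := by
    simp [iteratedDeriv_succ, iteratedDeriv_zero]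
  have c2 : ∀ z, deriv (deriv g) z = deriv (deriv g) 0 := fun z =>
    is_const_of_deriv_eq_zero d2 (fun x => by rw [← e3]; exact h3 x) z 0
  set k := deriv (deriv g) 0 with hk
  have c1 : ∀ z, deriv g z = deriv g 0 + k * z := by
    intro z
    have hd : Differentiable ℂ (fun z => deriv g z - k * z) := d1.sub (by fun_prop)
    have := is_const_of_deriv_eq_zero hd (fun x => by
      have h1 : HasDerivAt (fun z => deriv g z - k * z) (deriv (deriv g) x - k * 1) x :=
        (d1 x).hasDerivAt.sub ((hasDerivAt_id x).const_mul k)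
      rw [h1.deriv, c2 x]; ring) z 0
    simp only [mul_zero, sub_zero] at this
    linear_combination this
  refine ⟨deriv g 0, k / 2, fun z => ?_⟩
  have hd : Differentiable ℂ (fun z => g z - (deriv g 0 * z + k / 2 * z ^ 2)) :=
    hg.sub (by fun_prop)
  have := is_const_of_deriv_eq_zero hd (fun x => by
    have h1 : HasDerivAt (fun z => g z - (deriv g 0 * z + k / 2 * z ^ 2))
        (deriv g x - (deriv g 0 * 1 + k / 2 * (2 * x))) x := by
      refine (hg x).hasDerivAt.sub (((hasDerivAt_id x).const_mul _).add ?_)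
      have := (hasDerivAt_pow 2 x).const_mul (k / 2)
      simpa using this
    rw [h1.deriv, c1 x]; ring) z 0
  simp only [h0, mul_zero, ne_eq, OfNat.ofNat_ne_zero, not_false_eq_true, zero_pow, add_zero,
    sub_zero] at this
  linear_combination this

theorem entire_log {f : ℂ → ℂ} (hf : Differentiable ℂ f) (h0 : ∀ z, f z ≠ 0) (h1 : f 0 = 1)
    {a : ℝ} (ha : 0 ≤ a) (hb : ∀ z, ‖f z‖ ≤ Real.exp (a * ‖z‖ ^ 2)) :
    ∃ β γ : ℂ, ∀ z, f z = exp (β * z + γ * z ^ 2) := by
  have hq : Differentiable ℂ (fun z => deriv f z / f z) := (differentiable_deriv hf).div hf h0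
  obtain ⟨G, hG⟩ := hq.isExactOn_univ
  have hG' : ∀ z, HasDerivAt G (deriv f z / f z) z := fun z => hG z (mem_univ z)
  set g : ℂ → ℂ := fun z => G z - G 0 with hgdef
  have hg : ∀ z, HasDerivAt g (deriv f z / f z) z := fun z => (hG' z).sub_const _
  have hgd : Differentiable ℂ g := fun z => (hg z).differentiableAt
  have hg0 : g 0 = 0 := by simp [hgdef]
  have hfg : ∀ z, f z = exp (g z) := by
    intro z
    have hd : Differentiable ℂ (fun z => f z * exp (-g z)) := hf.mul (hgd.neg.cexp)
    have := is_const_of_deriv_eq_zero hd (fun x => by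
      have h2 : HasDerivAt (fun z => f z * exp (-g z))
          (deriv f x * exp (-g x) + f x * (exp (-g x) * (-(deriv f x / f x)))) x :=
        (hf x).hasDerivAt.mul ((hg x).neg.cexp)
      rw [h2.deriv]
      have := h0 x
      field_simp
      ring) z 0
    simp only [hg0, neg_zero, exp_zero, mul_one, h1] at this
    have h3 : exp (g z) * exp (-g z) = 1 := by rw [← exp_add]; simp
    calc f z = f z * (exp (g z) * exp (-g z)) := by rw [h3, mul_one]
      _ = (f z * exp (-g z)) * exp (g z) := by ring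
      _ = exp (g z) := by rw [this, one_mul]
  have hre : ∀ z, (g z).re ≤ a * ‖z‖ ^ 2 := by
    intro z
    have := hb z
    rw [hfg z, norm_exp] at this
    exact Real.exp_le_exp.1 this
  have hgrow : ∀ z, ‖g z‖ ≤ (8 * a) * ‖z‖ ^ 2 + 2 := by
    intro z
    rcases eq_or_ne z 0 with rfl | hz
    · simp [hg0]
    · have hz' : 0 < ‖z‖ := norm_pos_iff.2 hz
      have := borelCaratheodory_zero (f := g) (M := a * (2 * ‖z‖) ^ 2 + 1) (R := 2 * ‖z‖) (z := z)
        (by positivity) hgd.differentiableOn (fun w hw => by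
          have hw' : ‖w‖ < 2 * ‖z‖ := by simpa using hw
          have h4 : ‖w‖ ^ 2 ≤ (2 * ‖z‖) ^ 2 := pow_le_pow_left₀ (norm_nonneg _) hw'.le 2
          have := hre w
          show (g w).re ≤ _
          nlinarith [mul_le_mul_of_nonneg_left h4 ha]) (by positivity) (by
            simp only [mem_ball_zero_iff]; linarith) hg0
      refine this.trans (le_of_eq ?_)
      have : 2 * ‖z‖ - ‖z‖ = ‖z‖ := by ring
      rw [this]
      field_simp
      ring
  obtain ⟨β, γ, h⟩ := quad_of_growth hgd hg0 (by positivity) (by norm_num) hgrow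
  exact ⟨β, γ, fun z => by rw [hfg z, h z]⟩

end Pool.Agent.Q211.Cra
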